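import Pool.Agent.Helper79.GL4.GoalsR

/-!
# Packet OB (MP_27a5f8_al): from orbit numbers to transitivity
-/

namespace Pool.Agent.Helper46.GL4OB

open Module Submodule GL4

theorem trans_of_orb {G X : Type} [Group G] [MulAction G X] (h : orb G X = 1) (x y : X) :
    ∃ g : G, g • x = y := by
  unfold orb at h
  have h1 := (Nat.card_eq_one_iff_unique.mp h).1
  have h2 : (Quotient.mk (MulAction.orbitRel G X) y) = Quotient.mk (MulAction.orbitRel G X) x :=
    @Subsingleton.elim _ h1 _ _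
  have h3 := Quotient.exact h2
  have h4 : y ∈ MulAction.orbit G x := MulAction.orbitRel_apply.mp h3
  exact h4

theorem ob : GL4.OB := by
  intro F _ _ V _ _ _ K
  refine ⟨fun h x y hx hy => ?_, fun h L L' hL hL' => ?_, fun h x L x' L' hx hL hx' hL' hxL hxL' => ?_⟩
  · obtain ⟨g, hg⟩ := trans_of_orb h (⟨x, hx⟩ : Pts F V) ⟨y, hy⟩
    exact ⟨g.1, g.2, congrArg Subtype.val hg⟩
  · obtain ⟨g, hg⟩ := trans_of_orb h (⟨L, hL⟩ : Lns F V) ⟨L', hL'⟩
    exact ⟨g.1, g.2, congrArg Subtype.val hg⟩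
  · obtain ⟨g, hg⟩ := trans_of_orb h (⟨(x, L), hx, hL, hxL⟩ : Flg F V) ⟨(x', L'), hx', hL', hxL'⟩
    have := congrArg Subtype.val hg
    exact ⟨g.1, g.2, congrArg Prod.fst this, congrArg Prod.snd this⟩

end Pool.Agent.Helper46.GL4OB
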